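import Pool.Agent.R87.SpectralMain

/-!
# MP_a5282b_co, Q1 : a `θ₃`-spectral graph exists

The graph is a Cayley graph of `𝔽₂⁶` on 64 vertices: its eigenpolytope for the third largest
distinct eigenvalue `5` is the polytope (a 12-dimensional polytope with 64 vertices in
`{-1, 1}¹²`) of the codewords of a binary `[12, 6]` code, and its edges are the pairs of
codewords whose difference is a minimal codeword.
-/

namespace Pool.Agent.Results.MP_a5282b_co.ThetaThreeSpectral

open Pool.R87.Spectral

/-- There is a finite simple graph, with at least two vertices, which is `θ_k`-spectral for some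
`k ≠ 2` (here `k = 3`). -/
theorem result : ∃ (n : ℕ) (G : SimpleGraph (Fin n)) (k : ℕ) (θ : ℝ),
    2 ≤ n ∧ k ≠ 2 ∧ IsKthEigenvalue G k θ ∧ IsSpectral G θ :=
  Pool.R87.Spectral.main

end Pool.Agent.Results.MP_a5282b_co.ThetaThreeSpectral
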